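import Pool.Agent.Helper22.AW.Defs
import Pool.Agent.Helper93.EX.Fin4

/-!
# AW, block S6: from open to closed ovals and from dyadic intervals to all intervals, for the worst centre
-/

open MeasureTheory Real Set Filter Topology

set_option autoImplicit false

namespace Pool.Agent.Helper60.AW

open Pool.Agent.Helper93.AO Pool.Agent.Helper88.EX
open Pool.Agent.Helper93.EX
open Pool.Agent.Helper22.AE (area)
open Pool.Agent.Helper22.OV (shf exists_shift)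
open Pool.Agent.Helper22.AW

private theorem two_le_pow60 {p : ℕ} (hp : 1 ≤ p) : (2 : ℝ) ≤ 2 ^ p := by
  calc (2 : ℝ) = 2 ^ 1 := (pow_one _).symm
    _ ≤ 2 ^ p := pow_le_pow_right₀ (by norm_num) hp

private theorem fin60 (A B : ℝ) (P : ℝ → Prop) : volume {R : ℝ | R ∈ Icc A B ∧ P R} ≠ ⊤ :=
  ((measure_mono fun _ h => h.1).trans_lt (measure_Icc_lt_top (a := A) (b := B))).ne

/-- a smaller constant turns `≥` into `>` -/
private theorem LSc_le_LS60 (F : ℝ → ℝ × ℝ → ℝ) {t' t : ℝ} (h : t' < t) {A B : ℝ} (hA : 2 ≤ A) :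
    LSc F t A B ≤ LS F t' A B := by
  unfold LSc LS
  refine measureReal_mono ?_ (fin60 A B _)
  rintro R ⟨h1, c, h2⟩
  refine ⟨h1, c, lt_of_lt_of_le ?_ h2⟩
  exact mul_lt_mul_of_pos_right h (gR_pos (hA.trans h1.1))

/-- one constant between -/
private theorem exists_t60 (T : ℝ) {t : ℝ} (ht : 0 < t) {ε : ℝ} (hε : 0 < ε) :
    ∃ t' : ℝ, 0 < t' ∧ t' < t ∧ (t / T) ^ 4 - (t' / T) ^ 4 ≤ ε / 2 := by
  have hc : Continuous fun x : ℝ => (t / T) ^ 4 - (x / T) ^ 4 := by fun_prop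
  have h1 : ∀ᶠ x in 𝓝 t, (t / T) ^ 4 - (x / T) ^ 4 < ε / 2 := by
    refine (hc.tendsto t).eventually_lt_const ?_
    simp only [sub_self]
    positivity
  have h2 : ∀ᶠ x in 𝓝[<] t, (t / T) ^ 4 - (x / T) ^ 4 < ε / 2 := h1.filter_mono nhdsWithin_le_nhds
  have h3 : ∀ᶠ x in 𝓝[<] t, 0 < x := (lt_mem_nhds ht).filter_mono nhdsWithin_le_nhds
  obtain ⟨x, ⟨hx1, hx2⟩, hx3⟩ := ((h2.and h3).and self_mem_nhdsWithin).exists
  exact ⟨x, hx2, hx3, hx1.le⟩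

/-- the comparison of the closed oval with the open one at `R + δ`, uniformly in `R` -/
private theorem unif60 {t' t : ℝ} (h : t' < t) (a : ℝ) {A B : ℝ} (hA : 2 ≤ A) :
    ∃ δ₀ : ℝ, 0 < δ₀ ∧ ∀ δ : ℝ, 0 < δ → δ < δ₀ → ∀ R ∈ Icc A B, t' * gR (R + δ) + a * ((R + δ) ^ 2 - R ^ 2) < t * gR R := by
  have h0 : ∀ᶠ δ in 𝓝 (0 : ℝ), ∀ R ∈ Icc A B, t' * gR (R + |δ|) + a * ((R + |δ|) ^ 2 - R ^ 2) < t * gR R := by
    refine isCompact_Icc.eventually_forall_of_forall_eventually fun R hR => ?_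
    have h2 : (2 : ℝ) ≤ R := hA.trans hR.1
    have hg1 : ContinuousAt (fun z : ℝ × ℝ => gR (z.2 + |z.1|)) ((0 : ℝ), R) := by
      have e : ContinuousAt gR ((fun z : ℝ × ℝ => z.2 + |z.1|) ((0 : ℝ), R)) := by
        simp only [abs_zero, add_zero]
        exact gR_cont h2
      exact ContinuousAt.comp (f := fun z : ℝ × ℝ => z.2 + |z.1|) e (by fun_prop)
    have hg2 : ContinuousAt (fun z : ℝ × ℝ => gR z.2) ((0 : ℝ), R) := by
      have e : ContinuousAt gR ((fun z : ℝ × ℝ => z.2) ((0 : ℝ), R)) := gR_cont h2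
      exact ContinuousAt.comp (f := fun z : ℝ × ℝ => z.2) e (by fun_prop)
    have hc1 : ContinuousAt (fun z : ℝ × ℝ => t' * gR (z.2 + |z.1|) + a * ((z.2 + |z.1|) ^ 2 - z.2 ^ 2)) ((0 : ℝ), R) :=
      (continuousAt_const.mul hg1).add (by fun_prop)
    have hc2 : ContinuousAt (fun z : ℝ × ℝ => t * gR z.2) ((0 : ℝ), R) := continuousAt_const.mul hg2
    refine hc1.eventually_lt hc2 ?_
    simp only [abs_zero, add_zero, sub_self, mul_zero]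
    exact mul_lt_mul_of_pos_right h (gR_pos h2)
  obtain ⟨δ₀, h1, h2⟩ := Metric.eventually_nhds_iff.1 h0
  refine ⟨δ₀, h1, fun δ hδ hδ' R hR => ?_⟩
  have h3 := h2 (y := δ) (by rw [dist_zero_right, Real.norm_eq_abs, abs_of_pos hδ]; exact hδ') R hR
  rwa [abs_of_pos hδ] at h3

theorem close_s {H : ℝ → ℝ} (hO : IsOv H) {σ : ℝ} (hσ : σ = 1 ∨ σ = -1) {T : ℝ}
    (h : ∀ t : ℝ, 0 < t → ∀ ε : ℝ, 0 < ε → ∃ p₀ : ℕ, ∀ p : ℕ, p₀ ≤ p →
      LS (fun R c => Es σ H c R) t (2 ^ p) (2 ^ (p + 1)) ≤ 2 ^ ((1 - (t / T) ^ 4 + ε) * p : ℝ)) :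
    ∀ t : ℝ, 0 < t → ∀ ε : ℝ, 0 < ε → ∃ p₀ : ℕ, ∀ p : ℕ, p₀ ≤ p →
      LSc (fun R c => σ * Er idf H c R) t (2 ^ p) (2 ^ (p + 1)) ≤ 2 ^ ((1 - (t / T) ^ 4 + ε) * p : ℝ) := by
  intro t ht ε hε
  obtain ⟨t', ht0, htt, hε'⟩ := exists_t60 T ht hε
  obtain ⟨p₀, hp₀⟩ := h t' ht0 (ε / 2) (by positivity)
  refine ⟨max p₀ 1, fun p hp => ?_⟩
  have hp1 : 1 ≤ p := (le_max_right _ _).trans hp
  have hA : (2 : ℝ) ≤ 2 ^ p := two_le_pow60 hp1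
  have hexp : (2 : ℝ) ^ ((1 - (t' / T) ^ 4 + ε / 2) * p : ℝ) ≤ 2 ^ ((1 - (t / T) ^ 4 + ε) * p : ℝ) := by
    refine Real.rpow_le_rpow_of_exponent_le (by norm_num) ?_
    refine mul_le_mul_of_nonneg_right ?_ (Nat.cast_nonneg p)
    linarith
  have hmain := (hp₀ p ((le_max_left _ _).trans hp)).trans hexp
  rcases hσ with rfl | rfl
  · obtain ⟨v, hv⟩ := exists_shift hO.smooth hO.per hO.rho_pos
    obtain ⟨δ₀, hδ₀, hδ⟩ := unif60 htt (area H) (A := 2 ^ p) (B := 2 ^ (p + 1)) hA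
    refine le_of_forall_pos_le_add fun η hη => ?_
    obtain ⟨δ, hδ1, hδ2⟩ : ∃ δ : ℝ, 0 < δ ∧ δ < min δ₀ η := exists_between (lt_min hδ₀ hη)
    have hδ3 : δ < δ₀ := hδ2.trans_le (min_le_left _ _)
    have hδ4 : δ < η := hδ2.trans_le (min_le_right _ _)
    have hsub : {R : ℝ | R ∈ Icc ((2 : ℝ) ^ p) (2 ^ (p + 1)) ∧ ∃ c : ℝ × ℝ, t * gR R ≤ 1 * Er idf H c R} ⊆
        (fun R => R + δ) ⁻¹' ({R : ℝ | R ∈ Icc ((2 : ℝ) ^ p) (2 ^ (p + 1)) ∧ ∃ c : ℝ × ℝ, t' * gR R < Es 1 H c R} ∪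
          Icc (2 ^ (p + 1)) (2 ^ (p + 1) + δ)) := by
      rintro R ⟨h1, c, h2⟩
      simp only [mem_preimage, mem_union]
      rcases le_or_gt (R + δ) (2 ^ (p + 1)) with h3 | h3
      · left
        refine ⟨⟨by linarith [h1.1], h3⟩, (c.1 + δ * v.1, c.2 + δ * v.2), ?_⟩
        rw [Es_one, ErO_idf]
        rw [one_mul, Er_idf] at h2
        have h4 : ((SC H c R).ncard : ℝ) ≤ ((SO H (c.1 + δ * v.1, c.2 + δ * v.2) (R + δ)).ncard : ℝ) := by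
          have h5 := SC_sub_SO hv.pos (c := c) (show R < R + δ by linarith)
          rw [add_sub_cancel_left] at h5
          exact_mod_cast Set.ncard_le_ncard h5 (fin_SO _ _ _)
        have h6 := hδ δ hδ1 hδ3 R h1
        linarith
      · right
        exact ⟨h3.le, by linarith [h1.2]⟩
    calc LSc (fun R c => 1 * Er idf H c R) t (2 ^ p) (2 ^ (p + 1))
        ≤ volume.real ((fun R => R + δ) ⁻¹' ({R : ℝ | R ∈ Icc ((2 : ℝ) ^ p) (2 ^ (p + 1)) ∧ ∃ c : ℝ × ℝ, t' * gR R < Es 1 H c R} ∪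
          Icc (2 ^ (p + 1)) (2 ^ (p + 1) + δ))) := by
          refine measureReal_mono hsub ?_
          rw [measure_preimage_add_right]
          exact (measure_union_lt_top (lt_top_iff_ne_top.2 (fin60 _ _ _)) measure_Icc_lt_top).ne
      _ = volume.real ({R : ℝ | R ∈ Icc ((2 : ℝ) ^ p) (2 ^ (p + 1)) ∧ ∃ c : ℝ × ℝ, t' * gR R < Es 1 H c R} ∪
          Icc (2 ^ (p + 1)) (2 ^ (p + 1) + δ)) := by
          unfold Measure.real
          rw [measure_preimage_add_right]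
      _ ≤ volume.real {R : ℝ | R ∈ Icc ((2 : ℝ) ^ p) (2 ^ (p + 1)) ∧ ∃ c : ℝ × ℝ, t' * gR R < Es 1 H c R} +
          volume.real (Icc ((2 : ℝ) ^ (p + 1)) (2 ^ (p + 1) + δ)) := measureReal_union_le _ _
      _ ≤ 2 ^ ((1 - (t / T) ^ 4 + ε) * p : ℝ) + η := by
          refine add_le_add hmain ?_
          rw [Real.volume_real_Icc, add_sub_cancel_left, max_eq_left hδ1.le]
          exact hδ4.le
  · refine le_trans ?_ hmain
    refine (LSc_le_LS60 _ htt hA).trans (le_of_eq ?_)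
    unfold LS
    simp only [Es_neg, neg_mul, one_mul]

private theorem pw60 (β : ℝ) {u : ℝ} (h1 : 1 / 2 ≤ u) (h2 : u ≤ 2) : u ^ β ≤ 2 ^ |β| := by
  have hu : 0 < u := by linarith
  have hl : 0 < Real.log 2 := Real.log_pos one_lt_two
  have h3 : |Real.log u| ≤ Real.log 2 := by
    rw [abs_le]
    constructor
    · have := Real.log_le_log (by norm_num) h1
      rw [one_div, Real.log_inv] at this
      exact this
    · exact Real.log_le_log hu h2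
  have h4 : |β * Real.log u| ≤ |β| * Real.log 2 := by
    rw [abs_mul]
    exact mul_le_mul_of_nonneg_left h3 (abs_nonneg _)
  rw [abs_le] at h4
  rw [rpow_def_of_pos hu, rpow_def_of_pos two_pos]
  exact exp_le_exp.2 (by linarith)

private theorem pw_X60 (β : ℝ) (q : ℕ) {X : ℝ} (hX : 0 < X) (h1 : X ≤ 2 * 2 ^ q) (h2 : (2 : ℝ) ^ q ≤ 2 * X) :
    (2 : ℝ) ^ (β * q) ≤ 2 ^ |β| * X ^ β := by
  have hu1 : 1 / 2 ≤ (2 : ℝ) ^ q / X := by
    rw [le_div_iff₀ hX]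
    linarith
  have hu2 : (2 : ℝ) ^ q / X ≤ 2 := by
    rw [div_le_iff₀ hX]
    exact h2
  have h3 : (2 : ℝ) ^ (β * q) = ((2 : ℝ) ^ q / X) ^ β * X ^ β := by
    rw [mul_comm, rpow_mul (by norm_num), rpow_natCast, ← mul_rpow (by positivity) hX.le, div_mul_cancel₀ _ hX.ne']
  have h6 : 0 ≤ X ^ β := rpow_nonneg hX.le _
  rw [h3]
  exact mul_le_mul_of_nonneg_right (pw60 β hu1 hu2) h6

private theorem LSc_split60 {F : ℝ → ℝ × ℝ → ℝ} {t A B D A' D' : ℝ} (hA : A ≤ A') (hD : D' ≤ D) :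
    LSc F t A' D' ≤ LSc F t A B + LSc F t B D := by
  unfold LSc
  refine (measureReal_mono ?_ ?_).trans (measureReal_union_le _ _)
  · intro R hR
    rcases le_total R B with h | h
    · exact Or.inl ⟨⟨hA.trans hR.1.1, h⟩, hR.2⟩
    · exact Or.inr ⟨⟨h, hR.1.2.trans hD⟩, hR.2⟩
  · exact (measure_union_lt_top (lt_top_iff_ne_top.2 (fin60 _ _ _)) (lt_top_iff_ne_top.2 (fin60 _ _ _))).ne

theorem dy_s {F : ℝ → ℝ × ℝ → ℝ} {T : ℝ}
    (hu : ∀ t : ℝ, 0 < t → ∀ ε : ℝ, 0 < ε → ∃ p₀ : ℕ, ∀ p : ℕ, p₀ ≤ p → LSc F t (2 ^ p) (2 ^ (p + 1)) ≤ 2 ^ ((1 - (t / T) ^ 4 + ε) * p : ℝ)) :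
    ∀ t : ℝ, 0 < t → ∀ ε : ℝ, 0 < ε → ∃ X₀ : ℝ, ∀ X : ℝ, X₀ ≤ X → LSc F t X (2 * X) ≤ X ^ (1 - (t / T) ^ 4 + ε) := by
  intro t ht ε hε
  have hε2 : 0 < ε / 2 := by positivity
  obtain ⟨β, hβ⟩ : ∃ β, β = 1 - (t / T) ^ 4 + ε / 2 := ⟨_, rfl⟩
  obtain ⟨p₁, hp₁⟩ := hu t ht (ε / 2) hε2
  obtain ⟨X₁, hX₁⟩ := eventually_atTop.1 ((tendsto_rpow_atTop hε2).eventually_ge_atTop ((2 : ℝ) ^ (1 + |β|)))
  refine ⟨max X₁ ((2 : ℝ) ^ p₁), fun X hX => ?_⟩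
  have hXX₁ : X₁ ≤ X := (le_max_left _ _).trans hX
  have hXp : (2 : ℝ) ^ p₁ ≤ X := (le_max_right _ _).trans hX
  have hX1 : 1 ≤ X := (one_le_pow₀ (by norm_num)).trans hXp
  have hX0 : 0 < X := by linarith
  obtain ⟨p, hpX, hXp1⟩ : ∃ p : ℕ, (2 : ℝ) ^ p ≤ X ∧ X < 2 ^ (p + 1) :=
    exists_nat_pow_near hX1 one_lt_two
  have hpp : p₁ ≤ p := by
    have h1 : (2 : ℝ) ^ p₁ < 2 ^ (p + 1) := lt_of_le_of_lt hXp hXp1
    have h2 := (pow_lt_pow_iff_right₀ (one_lt_two (α := ℝ))).1 h1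
    omega
  have hpow : (2 : ℝ) ^ (p + 1) = 2 * 2 ^ p := pow_succ' _ _
  have hpow2 : (2 : ℝ) ^ (p + 1 + 1) = 2 * 2 ^ (p + 1) := pow_succ' _ _
  have hp0 : (0 : ℝ) < 2 ^ p := by positivity
  have a1 := pw_X60 β p hX0 (by linarith) (by linarith)
  have a3 := pw_X60 β (p + 1) hX0 (by linarith) (by linarith)
  have h1 := hp₁ p hpp
  have h2 := hp₁ (p + 1) (hpp.trans (Nat.le_succ p))
  rw [← hβ] at h1 h2
  have h3 : LSc F t X (2 * X) ≤ LSc F t (2 ^ p) (2 ^ (p + 1)) + LSc F t (2 ^ (p + 1)) (2 ^ (p + 1 + 1)) :=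
    LSc_split60 hpX (by linarith)
  have h4 : X ^ (1 - (t / T) ^ 4 + ε) = X ^ β * X ^ (ε / 2) := by
    rw [← rpow_add hX0, hβ]
    congr 1
    ring
  have h5 := hX₁ X hXX₁
  have h6 : (2 : ℝ) ^ (1 + |β|) = 2 * 2 ^ |β| := by
    rw [rpow_add two_pos, rpow_one]
  have h7 : 0 < X ^ β := rpow_pos_of_pos hX0 _
  rw [h4]
  calc LSc F t X (2 * X) ≤ 2 ^ |β| * X ^ β + 2 ^ |β| * X ^ β :=
        h3.trans (add_le_add (h1.trans a1) (h2.trans a3))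
    _ = X ^ β * (2 * 2 ^ |β|) := by ring
    _ ≤ X ^ β * X ^ (ε / 2) := by
      rw [← h6]
      exact mul_le_mul_of_nonneg_left h5 h7.le

/-- the frequency of the large values at the worst centre, for all `X` -/
theorem fin_law_s {H : ℝ → ℝ} (hO : IsOv H) {σ : ℝ} (hσ : σ = 1 ∨ σ = -1) (h : LawS σ H) {t : ℝ} (ht : 0 < t) {ε : ℝ} (hε : 0 < ε) :
    ∃ X₀ : ℝ, ∀ X : ℝ, X₀ ≤ X → LSc (fun R c => σ * Er idf H c R) t X (2 * X) ≤ X ^ (1 - (t / (kap σ * aff H ^ (3 / 4 : ℝ))) ^ 4 + ε) :=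
  dy_s (close_s hO hσ h) t ht ε hε

end Pool.Agent.Helper60.AW
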